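import Mathlib

/-!
Chebyshev-type trigonometric quadrature: the node counts are not governed by the local
behaviour of the weight.
-/

open Real MeasureTheory

namespace Pool.Agent.Results.MP_c62d6e_an.NotLocal

/-- `W` is a `2π`-periodic weight function. -/
structure IsWeight (W : ℝ → ℝ) : Prop where
  measurable : Measurable W
  nonneg : ∀ θ, 0 ≤ W θ
  periodic : Function.Periodic W (2 * π)
  integrable : IntervalIntegrable W volume (-π) π
  integral_pos : 0 < ∫ θ in (-π)..π, W θ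

/-- Real trigonometric polynomials of degree at most `n`. -/
def trigPoly (n : ℕ) : Submodule ℝ (ℝ → ℝ) :=
  Submodule.span ℝ
    ({f | ∃ k : ℕ, k ≤ n ∧ f = fun θ : ℝ => Real.cos (k * θ)} ∪
     {f | ∃ k : ℕ, k ≤ n ∧ f = fun θ : ℝ => Real.sin (k * θ)})

/-- There is a Chebyshev-type trigonometric quadrature of degree `n` for `W` with `N` nodes. -/
def HasQuad (W : ℝ → ℝ) (n N : ℕ) : Prop :=
  ∃ (t : Fin N → ℝ) (lam : ℝ), Monotone t ∧
    ∀ p ∈ trigPoly n, ∫ θ in (-π)..π, p θ * W θ = lam * ∑ i, p (t i)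

/-- The least number of nodes (`⊤` if there is no quadrature). -/
noncomputable def minNodes (W : ℝ → ℝ) (n : ℕ) : ℕ∞ :=
  ⨅ (N : ℕ) (_ : HasQuad W n N), (N : ℕ∞)

/-- The least `N₀` such that there is a quadrature with `N` nodes for every `N ≥ N₀`. -/
noncomputable def minAllNodes (W : ℝ → ℝ) (n : ℕ) : ℕ∞ :=
  ⨅ (N₀ : ℕ) (_ : ∀ N, N₀ ≤ N → HasQuad W n N), (N₀ : ℕ∞)

/-! ### Trigonometric polynomials -/

theorem cos_mem {n k : ℕ} (h : k ≤ n) : (fun θ : ℝ => Real.cos (k * θ)) ∈ trigPoly n :=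
  Submodule.subset_span (Or.inl ⟨k, h, rfl⟩)

theorem sin_mem {n k : ℕ} (h : k ≤ n) : (fun θ : ℝ => Real.sin (k * θ)) ∈ trigPoly n :=
  Submodule.subset_span (Or.inr ⟨k, h, rfl⟩)

theorem one_mem (n : ℕ) : (fun _ : ℝ => (1 : ℝ)) ∈ trigPoly n := by
  have := cos_mem (n := n) (Nat.zero_le n)
  simpa using this

theorem mono {m n : ℕ} (h : m ≤ n) : trigPoly m ≤ trigPoly n := by
  apply Submodule.span_mono
  rintro f (⟨k, hk, rfl⟩ | ⟨k, hk, rfl⟩)
  · exact Or.inl ⟨k, hk.trans h, rfl⟩
  · exact Or.inr ⟨k, hk.trans h, rfl⟩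

theorem cos_mul_mem {n : ℕ} {p : ℝ → ℝ} (hp : p ∈ trigPoly n) :
    (fun θ => Real.cos θ * p θ) ∈ trigPoly (n + 1) := by
  induction hp using Submodule.span_induction with
  | mem f hf =>
    rcases hf with (⟨k, hk, rfl⟩ | ⟨k, hk, rfl⟩)
    · rcases Nat.eq_zero_or_pos k with rfl | hk0
      · have := cos_mem (n := n + 1) (k := 1) (by omega)
        simpa using this
      · obtain ⟨j, rfl⟩ : ∃ j, k = j + 1 := ⟨k - 1, by omega⟩
        have h1 := cos_mem (n := n + 1) (k := j + 2) (by omega)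
        have h2 := cos_mem (n := n + 1) (k := j) (by omega)
        have h3 := (trigPoly (n + 1)).smul_mem (1 / 2 : ℝ) ((trigPoly (n + 1)).add_mem h1 h2)
        convert h3 using 1
        ext θ
        simp only [Pi.smul_apply, Pi.add_apply, smul_eq_mul]
        push_cast
        have e1 : ((j : ℝ) + 2) * θ = ((j : ℝ) + 1) * θ + θ := by ring
        have e2 : (j : ℝ) * θ = ((j : ℝ) + 1) * θ - θ := by ring
        rw [e1, e2, Real.cos_add, Real.cos_sub]
        ring
    · rcases Nat.eq_zero_or_pos k with rfl | hk0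
      · have := (trigPoly (n + 1)).zero_mem
        convert this using 1
        ext θ; simp
      · obtain ⟨j, rfl⟩ : ∃ j, k = j + 1 := ⟨k - 1, by omega⟩
        have h1 := sin_mem (n := n + 1) (k := j + 2) (by omega)
        have h2 := sin_mem (n := n + 1) (k := j) (by omega)
        have h3 := (trigPoly (n + 1)).smul_mem (1 / 2 : ℝ) ((trigPoly (n + 1)).add_mem h1 h2)
        convert h3 using 1
        ext θ
        simp only [Pi.smul_apply, Pi.add_apply, smul_eq_mul]
        push_cast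
        have e1 : ((j : ℝ) + 2) * θ = ((j : ℝ) + 1) * θ + θ := by ring
        have e2 : (j : ℝ) * θ = ((j : ℝ) + 1) * θ - θ := by ring
        rw [e1, e2, Real.sin_add, Real.sin_sub]
        ring
  | zero =>
    have := (trigPoly (n + 1)).zero_mem
    convert this using 1
    ext θ; simp
  | add f g hf hg ihf ihg =>
    have := (trigPoly (n + 1)).add_mem ihf ihg
    convert this using 1
    ext θ; simp [mul_add]
  | smul a f hf ihf =>
    have := (trigPoly (n + 1)).smul_mem a ihf
    convert this using 1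
    ext θ; simp; ring

theorem cos_pow_mem (n : ℕ) : (fun θ => Real.cos θ ^ n) ∈ trigPoly n := by
  induction n with
  | zero => simpa using one_mem 0
  | succ n ih =>
    have := cos_mul_mem ih
    convert this using 1
    ext θ; ring

theorem polyCos_mem (P : Polynomial ℝ) {n : ℕ} (h : P.natDegree ≤ n) :
    (fun θ => P.eval (Real.cos θ)) ∈ trigPoly n := by
  have e : (fun θ => P.eval (Real.cos θ)) =
      ∑ i ∈ Finset.range (n + 1), P.coeff i • (fun θ => Real.cos θ ^ i) := by
    ext θ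
    rw [Polynomial.eval_eq_sum_range' (n := n + 1) (by omega)]
    simp
  rw [e]
  apply Submodule.sum_mem
  intro i hi
  apply Submodule.smul_mem
  exact mono (by have := Finset.mem_range.mp hi; omega) (cos_pow_mem i)

theorem continuous_of_mem {n : ℕ} {p : ℝ → ℝ} (hp : p ∈ trigPoly n) : Continuous p := by
  induction hp using Submodule.span_induction with
  | mem f hf =>
    rcases hf with (⟨k, hk, rfl⟩ | ⟨k, hk, rfl⟩)
    · fun_prop
    · fun_prop
  | zero => exact continuous_const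
  | add f g hf hg ihf ihg => exact ihf.add ihg
  | smul a f hf ihf => exact continuous_const.smul ihf

theorem shift_mem {n : ℕ} {p : ℝ → ℝ} (hp : p ∈ trigPoly n) :
    (fun θ => p (θ + π)) ∈ trigPoly n := by
  induction hp using Submodule.span_induction with
  | mem f hf =>
    rcases hf with (⟨k, hk, rfl⟩ | ⟨k, hk, rfl⟩)
    · have := (trigPoly n).smul_mem ((-1 : ℝ) ^ k) (cos_mem (n := n) hk)
      convert this using 1
      ext θ
      simp only [Pi.smul_apply, smul_eq_mul]
      rw [mul_add, Real.cos_add_nat_mul_pi]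
    · have := (trigPoly n).smul_mem ((-1 : ℝ) ^ k) (sin_mem (n := n) hk)
      convert this using 1
      ext θ
      simp only [Pi.smul_apply, smul_eq_mul]
      rw [mul_add, Real.sin_add_nat_mul_pi]
  | zero => exact (trigPoly n).zero_mem
  | add f g hf hg ihf ihg => exact (trigPoly n).add_mem ihf ihg
  | smul a f hf ihf => exact (trigPoly n).smul_mem a ihf

theorem hint {W : ℝ → ℝ} (hW : IsWeight W) {q : ℝ → ℝ} (hq : Continuous q) :
    IntervalIntegrable (fun θ => q θ * W θ) volume (-π) π :=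
  hW.integrable.continuousOn_mul hq.continuousOn

/-- It is enough to check a quadrature formula on the spanning set. -/
theorem quad_of_basis {W : ℝ → ℝ} (hW : IsWeight W) {n N : ℕ} (t : Fin N → ℝ) (lam : ℝ)
    (hc : ∀ k : ℕ, k ≤ n → ∫ θ in (-π)..π, Real.cos (k * θ) * W θ =
      lam * ∑ i, Real.cos (k * t i))
    (hsn : ∀ k : ℕ, k ≤ n → ∫ θ in (-π)..π, Real.sin (k * θ) * W θ =
      lam * ∑ i, Real.sin (k * t i)) :
    ∀ p ∈ trigPoly n, ∫ θ in (-π)..π, p θ * W θ = lam * ∑ i, p (t i) := by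
  intro p hp
  induction hp using Submodule.span_induction with
  | mem f hf =>
    rcases hf with (⟨k, hk, rfl⟩ | ⟨k, hk, rfl⟩)
    · exact hc k hk
    · exact hsn k hk
  | zero => simp
  | add f g hf hg ihf ihg =>
    have e : (fun θ => (f + g) θ * W θ) = fun θ => f θ * W θ + g θ * W θ := by
      ext θ; simp [add_mul]
    rw [e, intervalIntegral.integral_add (hint hW (continuous_of_mem hf))
      (hint hW (continuous_of_mem hg)), ihf, ihg]
    simp [Finset.sum_add_distrib, mul_add]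
  | smul a f hf ihf =>
    have e : (fun θ => (a • f) θ * W θ) = fun θ => a * (f θ * W θ) := by
      ext θ; simp [mul_assoc]
    rw [e, intervalIntegral.integral_const_mul, ihf]
    simp only [Pi.smul_apply, smul_eq_mul, ← Finset.mul_sum]
    ring

/-! ### The rectangle rule -/

theorem sum_exp_zero {N k : ℕ} (hk : 0 < k) (hkN : k < N) (x : ℝ) :
    ∑ i : Fin N, Complex.exp (Complex.I * (k * (x + 2 * π * (i : ℕ) / N))) = 0 := by
  have hN : N ≠ 0 := by omega
  have hprim := Complex.isPrimitiveRoot_exp N hN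
  set ζ := Complex.exp (2 * π * Complex.I / N) with hζ
  have h1 : ∀ i : Fin N, Complex.exp (Complex.I * (k * (x + 2 * π * (i : ℕ) / N))) =
      Complex.exp (Complex.I * (k * x)) * (ζ ^ k) ^ (i : ℕ) := by
    intro i
    rw [hζ, ← Complex.exp_nat_mul, ← Complex.exp_nat_mul, ← Complex.exp_add]
    congr 1
    have : (N : ℂ) ≠ 0 := by exact_mod_cast hN
    field_simp
  rw [Finset.sum_congr rfl (fun i _ => h1 i), ← Finset.mul_sum]
  have h2 : ∑ i : Fin N, (ζ ^ k) ^ (i : ℕ) = ∑ i ∈ Finset.range N, (ζ ^ k) ^ i := by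
    rw [Finset.sum_range]
  have hne : ζ ^ k ≠ 1 := hprim.pow_ne_one_of_pos_of_lt hk.ne' hkN
  have h3 : (ζ ^ k - 1) * ∑ i ∈ Finset.range N, (ζ ^ k) ^ i = 0 := by
    rw [mul_geom_sum, ← pow_mul, mul_comm k N, pow_mul, hprim.pow_eq_one, one_pow, sub_self]
  rw [h2, (mul_eq_zero.mp h3).resolve_left (sub_ne_zero.mpr hne), mul_zero]

theorem sum_cos_zero {N k : ℕ} (hk : 0 < k) (hkN : k < N) (x : ℝ) :
    ∑ i : Fin N, Real.cos (k * (x + 2 * π * (i : ℕ) / N)) = 0 := by
  have h := congrArg Complex.re (sum_exp_zero hk hkN x)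
  rw [Complex.re_sum, Complex.zero_re] at h
  rw [← h]
  apply Finset.sum_congr rfl
  intro i _
  rw [mul_comm Complex.I, show (k : ℂ) * (x + 2 * π * (i : ℕ) / N) =
    ((k * (x + 2 * π * (i : ℕ) / N) : ℝ) : ℂ) by push_cast; ring, Complex.exp_ofReal_mul_I_re]

theorem sum_sin_zero {N k : ℕ} (hk : 0 < k) (hkN : k < N) (x : ℝ) :
    ∑ i : Fin N, Real.sin (k * (x + 2 * π * (i : ℕ) / N)) = 0 := by
  have h := congrArg Complex.im (sum_exp_zero hk hkN x)
  rw [Complex.im_sum, Complex.zero_im] at h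
  rw [← h]
  apply Finset.sum_congr rfl
  intro i _
  rw [mul_comm Complex.I, show (k : ℂ) * (x + 2 * π * (i : ℕ) / N) =
    ((k * (x + 2 * π * (i : ℕ) / N) : ℝ) : ℂ) by push_cast; ring, Complex.exp_ofReal_mul_I_im]

theorem one_isWeight : IsWeight (fun _ => 1) where
  measurable := measurable_const
  nonneg := fun _ => zero_le_one
  periodic := fun _ => rfl
  integrable := intervalIntegrable_const
  integral_pos := by
    rw [intervalIntegral.integral_const, smul_eq_mul]
    have := Real.pi_pos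
    linarith

/-- the rectangle rule is exact -/
theorem rect {n N : ℕ} (hN : n < N) (x : ℝ) {p : ℝ → ℝ} (hp : p ∈ trigPoly n) :
    ∫ θ in (-π)..π, p θ = 2 * π / N * ∑ i : Fin N, p (x + 2 * π * (i : ℕ) / N) := by
  have hN0 : (N : ℝ) ≠ 0 := by
    have : N ≠ 0 := by omega
    exact_mod_cast this
  have h := quad_of_basis one_isWeight (n := n) (N := N) (fun i => x + 2 * π * (i : ℕ) / N)
    (2 * π / N) ?_ ?_ p hp
  · simpa using h
  · intro k hk
    rcases Nat.eq_zero_or_pos k with rfl | hk0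
    · simp
      field_simp
      ring
    · rw [sum_cos_zero hk0 (by omega), mul_zero]
      have hk' : (k : ℝ) ≠ 0 := by exact_mod_cast hk0.ne'
      simp only [mul_one]
      rw [intervalIntegral.integral_comp_mul_left (fun y => Real.cos y) hk', integral_cos]
      have e1 : Real.sin ((k : ℝ) * π) = 0 := Real.sin_nat_mul_pi k
      rw [mul_neg, Real.sin_neg, e1]; simp
  · intro k hk
    rcases Nat.eq_zero_or_pos k with rfl | hk0
    · simp
    · rw [sum_sin_zero hk0 (by omega), mul_zero]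
      have hk' : (k : ℝ) ≠ 0 := by exact_mod_cast hk0.ne'
      simp only [mul_one]
      rw [intervalIntegral.integral_comp_mul_left (fun y => Real.sin y) hk', integral_sin]
      rw [mul_neg, Real.cos_neg]; simp

/-! ### The arcsine type weight -/

/-- The basic weight, supported near the multiples of `2π`. -/
noncomputable def W0 (θ : ℝ) : ℝ := Real.sqrt ((1 + Real.cos θ) / (Real.cos θ - 7 / 8))

/-- The change of variables. -/
noncomputable def τ (ψ : ℝ) : ℝ := 2 * Real.arcsin (Real.sin (ψ / 2) / 4)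

theorem W0_zero {θ : ℝ} (h : Real.cos θ ≤ 7 / 8) : W0 θ = 0 := by
  unfold W0
  apply Real.sqrt_eq_zero_of_nonpos
  apply div_nonpos_of_nonneg_of_nonpos
  · linarith [Real.neg_one_le_cos θ]
  · linarith

theorem W0_nonneg (θ : ℝ) : 0 ≤ W0 θ := Real.sqrt_nonneg _

theorem W0_meas : Measurable W0 := by
  unfold W0; fun_prop

theorem W0_per : Function.Periodic W0 (2 * π) := by
  intro θ; unfold W0; rw [Real.cos_add_two_pi]

theorem abs_sin_four (ψ : ℝ) : |Real.sin (ψ / 2) / 4| ≤ 1 / 4 := by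
  rw [abs_div, abs_of_pos (show (0 : ℝ) < 4 by norm_num)]
  have := Real.abs_sin_le_one (ψ / 2)
  linarith

theorem sin_tau (ψ : ℝ) : Real.sin (τ ψ / 2) = Real.sin (ψ / 2) / 4 := by
  have h := abs_le.mp (abs_sin_four ψ)
  unfold τ
  rw [show 2 * Real.arcsin (Real.sin (ψ / 2) / 4) / 2 = Real.arcsin (Real.sin (ψ / 2) / 4) by ring,
    Real.sin_arcsin (by linarith) (by linarith)]

theorem cos_tau (ψ : ℝ) : Real.cos (τ ψ) = 15 / 16 + Real.cos ψ / 16 := by
  have h1 : Real.cos (τ ψ) = 1 - 2 * Real.sin (τ ψ / 2) ^ 2 := by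
    rw [show τ ψ = 2 * (τ ψ / 2) by ring, Real.cos_two_mul, Real.cos_sq']
    rw [show 2 * (τ ψ / 2) / 2 = τ ψ / 2 by ring]
    ring
  have h2 : Real.cos ψ = 1 - 2 * Real.sin (ψ / 2) ^ 2 := by
    rw [show ψ = 2 * (ψ / 2) by ring, Real.cos_two_mul, Real.cos_sq']
    rw [show 2 * (ψ / 2) / 2 = ψ / 2 by ring]
    ring
  rw [h1, sin_tau, h2]
  ring

theorem tau_neg (ψ : ℝ) : τ (-ψ) = - τ ψ := by
  unfold τ
  rw [neg_div, Real.sin_neg, neg_div, Real.arcsin_neg]
  ring

theorem tau_cont : Continuous τ := by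
  unfold τ
  exact continuous_const.mul (Real.continuous_arcsin.comp (by fun_prop))

theorem tau_deriv (ψ : ℝ) : HasDerivAt τ
    (2 * (1 / Real.sqrt (1 - (Real.sin (ψ / 2) / 4) ^ 2) * (Real.cos (ψ / 2) * (1 / 2) / 4))) ψ := by
  have h := abs_le.mp (abs_sin_four ψ)
  have h1 : HasDerivAt (fun x : ℝ => Real.sin (x / 2) / 4) (Real.cos (ψ / 2) * (1 / 2) / 4) ψ := by
    have := ((Real.hasDerivAt_sin (ψ / 2)).comp ψ ((hasDerivAt_id ψ).div_const 2)).div_const 4
    simpa using this
  have h2 := (Real.hasDerivAt_arcsin (x := Real.sin (ψ / 2) / 4) (by linarith [h.1])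
    (by linarith [h.2])).comp ψ h1
  exact h2.const_mul 2

theorem jac {ψ : ℝ} (hψ : ψ ∈ Set.Ioo (-π) π) :
    |2 * (1 / Real.sqrt (1 - (Real.sin (ψ / 2) / 4) ^ 2) * (Real.cos (ψ / 2) * (1 / 2) / 4))| *
      W0 (τ ψ) = 1 := by
  have hc : 0 < Real.cos (ψ / 2) := by
    apply Real.cos_pos_of_mem_Ioo
    constructor <;> [linarith [hψ.1]; linarith [hψ.2]]
  have hs : 0 < 1 - (Real.sin (ψ / 2) / 4) ^ 2 := by
    nlinarith [Real.sin_sq_le_one (ψ / 2)]
  have h1 : W0 (τ ψ) = 4 * Real.sqrt (1 - (Real.sin (ψ / 2) / 4) ^ 2) / Real.cos (ψ / 2) := by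
    unfold W0
    rw [cos_tau]
    have h2 : Real.cos ψ = 2 * Real.cos (ψ / 2) ^ 2 - 1 := by
      rw [← Real.cos_two_mul]; congr 1; ring
    have h3 : Real.sin (ψ / 2) ^ 2 = 1 - Real.cos (ψ / 2) ^ 2 := Real.sin_sq _
    have h4 : (1 + (15 / 16 + Real.cos ψ / 16)) / (15 / 16 + Real.cos ψ / 16 - 7 / 8) =
        (4 / Real.cos (ψ / 2)) ^ 2 * (1 - (Real.sin (ψ / 2) / 4) ^ 2) := by
      rw [h2, div_pow (Real.sin (ψ / 2)), h3, div_pow]
      have hc2 : Real.cos (ψ / 2) ^ 2 ≠ 0 := by positivity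
      rw [show (15 / 16 + (2 * Real.cos (ψ / 2) ^ 2 - 1) / 16 - 7 / 8 : ℝ) =
        Real.cos (ψ / 2) ^ 2 / 8 by ring]
      field_simp
      ring
    rw [h4, Real.sqrt_mul (by positivity), Real.sqrt_sq (by positivity)]
    ring
  have hsq : 0 < Real.sqrt (1 - (Real.sin (ψ / 2) / 4) ^ 2) := Real.sqrt_pos.mpr hs
  rw [h1, abs_of_pos (by positivity)]
  generalize Real.sqrt (1 - (Real.sin (ψ / 2) / 4) ^ 2) = q at hsq
  have := hc.ne'
  have := hsq.ne'
  field_simp

theorem tau_inj : Set.InjOn τ (Set.Ioo (-π) π) := by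
  intro x hx y hy hxy
  have h1 : Real.sin (x / 2) = Real.sin (y / 2) := by
    have := congrArg (fun z => Real.sin (z / 2)) hxy
    simp only [sin_tau] at this
    linarith
  have h2 : x / 2 = y / 2 := Real.injOn_sin
    ⟨by linarith [hx.1], by linarith [hx.2]⟩ ⟨by linarith [hy.1], by linarith [hy.2]⟩ h1
  linarith

theorem tau_abs (ψ : ℝ) : τ ψ ∈ Set.Ioo (-π) π := by
  have h := abs_le.mp (abs_sin_four ψ)
  have h1 : Real.arcsin (Real.sin (ψ / 2) / 4) < π / 2 :=
    Real.arcsin_lt_pi_div_two.mpr (by linarith)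
  have h2 : -(π / 2) < Real.arcsin (Real.sin (ψ / 2) / 4) :=
    Real.neg_pi_div_two_lt_arcsin.mpr (by linarith)
  unfold τ
  constructor <;> linarith

theorem image_sub : τ '' Set.Ioo (-π) π ⊆ Set.Ioo (-π) π := by
  rintro _ ⟨ψ, -, rfl⟩
  exact tau_abs ψ

theorem mem_image {θ : ℝ} (hθ : θ ∈ Set.Ioo (-π) π) (h : 7 / 8 < Real.cos θ) :
    θ ∈ τ '' Set.Ioo (-π) π := by
  have h1 : Real.cos θ = 1 - 2 * Real.sin (θ / 2) ^ 2 := by
    rw [show θ = 2 * (θ / 2) by ring, Real.cos_two_mul, Real.cos_sq']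
    rw [show 2 * (θ / 2) / 2 = θ / 2 by ring]
    ring
  have h2 : (4 * Real.sin (θ / 2)) ^ 2 < 1 := by nlinarith
  have h3 : |4 * Real.sin (θ / 2)| < 1 := by
    rw [← abs_one, ← sq_lt_sq]; simpa using h2
  have h4 := abs_lt.mp h3
  refine ⟨2 * Real.arcsin (4 * Real.sin (θ / 2)), ⟨?_, ?_⟩, ?_⟩
  · have := Real.neg_pi_div_two_lt_arcsin.mpr h4.1
    linarith
  · have := Real.arcsin_lt_pi_div_two.mpr h4.2
    linarith
  · unfold τ
    rw [show 2 * Real.arcsin (4 * Real.sin (θ / 2)) / 2 = Real.arcsin (4 * Real.sin (θ / 2)) by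
      ring, Real.sin_arcsin (by linarith) (by linarith),
      show 4 * Real.sin (θ / 2) / 4 = Real.sin (θ / 2) by ring,
      Real.arcsin_sin (by linarith [hθ.1]) (by linarith [hθ.2])]
    ring

theorem diff_zero {g : ℝ → ℝ} {θ : ℝ} (hθ : θ ∈ Set.Ioo (-π) π \ τ '' Set.Ioo (-π) π) :
    g θ * W0 θ = 0 := by
  have : W0 θ = 0 := by
    apply W0_zero
    by_contra h
    exact hθ.2 (mem_image hθ.1 (not_le.mp h))
  rw [this, mul_zero]

theorem cov (g : ℝ → ℝ) :
    ∫ θ in (-π)..π, g θ * W0 θ = ∫ ψ in (-π)..π, g (τ ψ) := by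
  have hpi := Real.pi_pos
  rw [intervalIntegral.integral_of_le (by linarith), intervalIntegral.integral_of_le (by linarith),
    integral_Ioc_eq_integral_Ioo, integral_Ioc_eq_integral_Ioo]
  rw [setIntegral_eq_of_subset_of_forall_sdiff_eq_zero measurableSet_Ioo image_sub
    (fun θ hθ => diff_zero hθ)]
  rw [integral_image_eq_integral_abs_deriv_smul measurableSet_Ioo
    (fun ψ _ => (tau_deriv ψ).hasDerivWithinAt) tau_inj]
  apply setIntegral_congr_fun measurableSet_Ioo
  intro ψ hψ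
  have := jac hψ
  simp only [smul_eq_mul]
  rw [mul_left_comm, this, mul_one]

theorem W0_int : IntervalIntegrable W0 volume (-π) π := by
  have hpi := Real.pi_pos
  rw [intervalIntegrable_iff_integrableOn_Ioo_of_le (by linarith)]
  have h1 : IntegrableOn W0 (τ '' Set.Ioo (-π) π) := by
    rw [integrableOn_image_iff_integrableOn_abs_deriv_smul measurableSet_Ioo
      (fun ψ _ => (tau_deriv ψ).hasDerivWithinAt) tau_inj]
    have h2 : IntegrableOn (fun _ : ℝ => (1 : ℝ)) (Set.Ioo (-π) π) := by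
      exact integrableOn_const (by simp) (by simp)
    refine h2.congr_fun ?_ measurableSet_Ioo
    intro ψ hψ
    simp only [smul_eq_mul]
    exact (jac hψ).symm
  refine h1.of_forall_sdiff_eq_zero measurableSet_Ioo ?_
  intro θ hθ
  have := diff_zero (g := fun _ => 1) hθ
  simpa using this

theorem W0_integral : ∫ θ in (-π)..π, W0 θ = 2 * π := by
  have := cov (fun _ => 1)
  simp only [one_mul] at this
  rw [this, intervalIntegral.integral_const, smul_eq_mul]
  ring

theorem W0_isWeight : IsWeight W0 where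
  measurable := W0_meas
  nonneg := W0_nonneg
  periodic := W0_per
  integrable := W0_int
  integral_pos := by rw [W0_integral]; linarith [Real.pi_pos]

theorem tau_mono : MonotoneOn τ (Set.Icc (-π) π) := by
  intro x hx y hy hxy
  unfold τ
  have h1 : Real.sin (x / 2) ≤ Real.sin (y / 2) :=
    Real.sin_le_sin_of_le_of_le_pi_div_two (by linarith [hx.1]) (by linarith [hy.2]) (by linarith)
  have h2 := Real.monotone_arcsin (show Real.sin (x / 2) / 4 ≤ Real.sin (y / 2) / 4 by linarith)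
  linarith

/-- `cos (k τ ψ)` is an even trigonometric polynomial in `ψ`. -/
theorem cos_k_tau (k : ℕ) : (fun ψ => Real.cos (k * τ ψ)) ∈ trigPoly k := by
  set P : Polynomial ℝ := (Polynomial.Chebyshev.T ℝ k).comp
    (Polynomial.C (15 / 16) + Polynomial.C (1 / 16) * Polynomial.X) with hP
  have e : (fun ψ => Real.cos (k * τ ψ)) = fun ψ => P.eval (Real.cos ψ) := by
    ext ψ
    have h1 := Polynomial.Chebyshev.T_real_cos (τ ψ) (k : ℤ)
    rw [hP, Polynomial.eval_comp]
    simp only [Polynomial.eval_add, Polynomial.eval_C, Polynomial.eval_mul, Polynomial.eval_X]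
    rw [show (15 / 16 + 1 / 16 * Real.cos ψ : ℝ) = Real.cos (τ ψ) by rw [cos_tau]; ring, h1]
    simp
  rw [e]
  apply polyCos_mem
  rw [hP]
  refine (Polynomial.natDegree_comp_le).trans ?_
  have h2 : (Polynomial.Chebyshev.T ℝ (k : ℤ)).natDegree ≤ k := by
    have := Polynomial.Chebyshev.natDegree_T ℝ (k : ℤ)
    rw [this, Int.natAbs_natCast]
  have h3 : (Polynomial.C (15 / 16 : ℝ) + Polynomial.C (1 / 16) * Polynomial.X).natDegree ≤ 1 := by
    compute_degree
  calc _ ≤ k * 1 := Nat.mul_le_mul h2 h3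
    _ = k := by ring

/-- `W0` has equal weight quadratures of degree `n` with any number `N > n` of nodes. -/
theorem quad_W0 {n N : ℕ} (hN : n < N) : HasQuad W0 n N := by
  have hpi := Real.pi_pos
  have hN0 : 0 < (N : ℝ) := by
    have : 0 < N := by omega
    exact_mod_cast this
  set ψ : Fin N → ℝ := fun i => (-π + π / N) + 2 * π * (i : ℕ) / N with hψ
  have hψmem : ∀ i, ψ i ∈ Set.Icc (-π) π := by
    intro i
    have h1 : ((i : ℕ) : ℝ) + 1 ≤ N := by exact_mod_cast i.2
    have e : ψ i = -π + π * (2 * (i : ℕ) + 1) / N := by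
      rw [hψ]; simp only; field_simp; ring
    have h2 : 0 ≤ π * (2 * ((i : ℕ) : ℝ) + 1) / N := by positivity
    have h3 : π * (2 * ((i : ℕ) : ℝ) + 1) / N ≤ 2 * π := by
      rw [div_le_iff₀ hN0]; nlinarith
    rw [e]
    constructor <;> linarith
  have hrev : ∀ i : Fin N, ψ (Fin.rev i) = - ψ i := by
    intro i
    have h1 : ((Fin.rev i : Fin N) : ℕ) = N - (i + 1) := Fin.val_rev i
    rw [hψ]
    simp only
    rw [h1, Nat.cast_sub (by have := i.2; omega)]
    push_cast
    field_simp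
    ring
  refine ⟨fun i => τ (ψ i), 2 * π / N, ?_, ?_⟩
  · intro i j hij
    apply tau_mono (hψmem i) (hψmem j)
    rw [hψ]
    simp only
    have : ((i : ℕ) : ℝ) ≤ ((j : ℕ) : ℝ) := by exact_mod_cast hij
    gcongr
  · apply quad_of_basis W0_isWeight
    · intro k hk
      rw [cov (fun θ => Real.cos (k * θ))]
      exact rect hN _ (mono hk (cos_k_tau k))
    · intro k hk
      rw [cov (fun θ => Real.sin (k * θ))]
      have h1 : ∫ ψ in (-π)..π, Real.sin (k * τ ψ) = 0 := by
        have h := intervalIntegral.integral_comp_neg (a := -π) (b := π)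
          (fun ψ => Real.sin (k * τ ψ))
        rw [neg_neg] at h
        simp only [tau_neg, mul_neg, Real.sin_neg, intervalIntegral.integral_neg] at h
        linarith
      have h2 : ∑ i, Real.sin (k * τ (ψ i)) = 0 := by
        have h := Equiv.sum_comp (Fin.revPerm (n := N)) (fun i => Real.sin (k * τ (ψ i)))
        simp only [Fin.revPerm_apply, hrev, tau_neg, mul_neg, Real.sin_neg,
          Finset.sum_neg_distrib] at h
        linarith
      rw [h1, h2, mul_zero]

/-- quadratures may be shifted by `π` and scaled -/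
theorem HasQuad.shift {W : ℝ → ℝ} (hW : IsWeight W) {n N : ℕ} (h : HasQuad W n N) (c : ℝ) :
    HasQuad (fun θ => c * W (θ + π)) n N := by
  obtain ⟨t, lam, ht, hq⟩ := h
  refine ⟨fun i => t i + π, c * lam, fun i j hij => by simpa using ht hij, ?_⟩
  intro p hp
  have h1 := hq _ (shift_mem hp)
  have hper : Function.Periodic (fun θ => p (θ + π) * W θ) (2 * π) := by
    have hpp : Function.Periodic p (2 * π) := by
      induction hp using Submodule.span_induction with
      | mem f hf =>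
        rcases hf with (⟨k, hk, rfl⟩ | ⟨k, hk, rfl⟩)
        · intro θ
          simp only [mul_add]
          rw [show (k : ℝ) * (2 * π) = k * (2 * π) by ring]
          exact Real.cos_add_nat_mul_two_pi _ k
        · intro θ
          simp only [mul_add]
          exact Real.sin_add_nat_mul_two_pi _ k
      | zero => intro θ; simp
      | add f g hf hg ihf ihg =>
        intro θ
        simp only [Pi.add_apply]
        rw [ihf (hq _ (shift_mem hf)), ihg (hq _ (shift_mem hg))]
      | smul a f hf ihf =>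
        intro θ
        simp only [Pi.smul_apply]
        rw [ihf (hq _ (shift_mem hf))]
    intro θ
    simp only
    rw [hW.periodic, show θ + 2 * π + π = θ + π + 2 * π by ring, hpp]
  have h2 : ∫ θ in (-π)..π, p θ * (c * W (θ + π)) = c * ∫ θ in (-π)..π, p (θ + π) * W θ := by
    rw [← intervalIntegral.integral_const_mul]
    have h3 : ∫ θ in (-π)..π, p (θ + π + π) * W (θ + π) =
        ∫ θ in (-π)..π, p (θ + π) * W θ := by
      rw [intervalIntegral.integral_comp_add_right (fun θ => p (θ + π) * W θ)]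
      have h := hper.intervalIntegral_add_eq (-π + π) (-π)
      rw [show -π + π + 2 * π = π + π by ring, show -π + 2 * π = π by ring] at h
      exact h
    rw [intervalIntegral.integral_const_mul, ← h3, ← intervalIntegral.integral_const_mul]
    apply intervalIntegral.integral_congr
    intro θ _
    simp only
    have hpp : p (θ + π + π) = p θ := by
      clear h1 h3 hper
      induction hp using Submodule.span_induction with
      | mem f hf =>
        rcases hf with (⟨k, hk, rfl⟩ | ⟨k, hk, rfl⟩)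
        · simp only
          rw [show (k : ℝ) * (θ + π + π) = k * θ + k * (2 * π) by ring]
          exact Real.cos_add_nat_mul_two_pi _ k
        · simp only
          rw [show (k : ℝ) * (θ + π + π) = k * θ + k * (2 * π) by ring]
          exact Real.sin_add_nat_mul_two_pi _ k
      | zero => simp
      | add f g hf hg ihf ihg => simp only [Pi.add_apply]; rw [ihf, ihg]
      | smul a f hf ihf => simp only [Pi.smul_apply]; rw [ihf]
    rw [hpp]
    ring
  rw [h2, h1, mul_assoc]

/-! ### The step polynomial -/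

/-- `P (Bin (2m+1, y) > m)`. -/
noncomputable def bern (m : ℕ) (y : ℝ) : ℝ :=
  ∑ j ∈ Finset.Ico (m + 1) (2 * m + 2), ((2 * m + 1).choose j : ℝ) * y ^ j * (1 - y) ^ (2 * m + 1 - j)

/-- `P (Bin (2m+1, y) ≤ m)`. -/
noncomputable def bern' (m : ℕ) (y : ℝ) : ℝ :=
  ∑ j ∈ Finset.Ico 0 (m + 1), ((2 * m + 1).choose j : ℝ) * y ^ j * (1 - y) ^ (2 * m + 1 - j)

theorem bern_add (m : ℕ) (y : ℝ) : bern' m y + bern m y = 1 := by
  unfold bern bern'
  rw [Finset.sum_Ico_consecutive _ (by omega) (by omega), ← Finset.range_eq_Ico]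
  have h := add_pow y (1 - y) (2 * m + 1)
  rw [add_sub_cancel, one_pow] at h
  refine Eq.trans (Finset.sum_congr rfl (fun j _ => ?_)) h.symm
  ring

theorem choose_sum (m : ℕ) : ∑ j ∈ Finset.range (2 * m + 2), ((2 * m + 1).choose j : ℝ) =
    2 ^ (2 * m + 1) := by
  have := Nat.sum_range_choose (2 * m + 1)
  exact_mod_cast this

theorem bern_nonneg (m : ℕ) {y : ℝ} (h0 : 0 ≤ y) (h1 : y ≤ 1) : 0 ≤ bern m y := by
  apply Finset.sum_nonneg
  intro j _
  have : 0 ≤ 1 - y := by linarith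
  positivity

theorem bern'_nonneg (m : ℕ) {y : ℝ} (h0 : 0 ≤ y) (h1 : y ≤ 1) : 0 ≤ bern' m y := by
  apply Finset.sum_nonneg
  intro j _
  have : 0 ≤ 1 - y := by linarith
  positivity

theorem bern_le (m : ℕ) {y : ℝ} (h0 : 0 ≤ y) (h1 : y ≤ 1 / 16) : bern m y ≤ (1 / 4) ^ m := by
  have h2 : bern m y ≤ 2 ^ (2 * m + 1) * y ^ (m + 1) := by
    rw [← choose_sum, Finset.sum_mul]
    unfold bern
    calc _ ≤ ∑ j ∈ Finset.Ico (m + 1) (2 * m + 2), ((2 * m + 1).choose j : ℝ) * y ^ (m + 1) := by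
          apply Finset.sum_le_sum
          intro j hj
          have hj := Finset.mem_Ico.mp hj
          have e1 : y ^ j ≤ y ^ (m + 1) := pow_le_pow_of_le_one h0 (by linarith) hj.1
          have e2 : (1 - y) ^ (2 * m + 1 - j) ≤ 1 := pow_le_one₀ (by linarith) (by linarith)
          have e3 : 0 ≤ (1 - y) ^ (2 * m + 1 - j) := pow_nonneg (by linarith) _
          have e4 : 0 ≤ y ^ j := by positivity
          calc ((2 * m + 1).choose j : ℝ) * y ^ j * (1 - y) ^ (2 * m + 1 - j)
              ≤ ((2 * m + 1).choose j : ℝ) * y ^ j * 1 := by gcongr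
            _ ≤ ((2 * m + 1).choose j : ℝ) * y ^ (m + 1) := by rw [mul_one]; gcongr
      _ ≤ _ := by
          apply Finset.sum_le_sum_of_subset_of_nonneg
          · intro j hj
            have hj := Finset.mem_Ico.mp hj
            exact Finset.mem_range.mpr hj.2
          · intro j _ _; positivity
  refine h2.trans ?_
  calc (2 : ℝ) ^ (2 * m + 1) * y ^ (m + 1) ≤ 2 ^ (2 * m + 1) * (1 / 16) ^ (m + 1) := by gcongr
    _ = (1 / 8) * ((4 : ℝ) ^ m * (1 / 16) ^ m) := by
        rw [pow_succ, pow_succ, pow_mul]; norm_num; ring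
    _ = (1 / 8) * (1 / 4) ^ m := by rw [← mul_pow]; norm_num
    _ ≤ (1 / 4) ^ m := by
        have : (0 : ℝ) < (1 / 4) ^ m := by positivity
        linarith

theorem bern'_le (m : ℕ) {y : ℝ} (h0 : 15 / 16 ≤ y) (h1 : y ≤ 1) : bern' m y ≤ (1 / 4) ^ m := by
  have h2 : bern' m y ≤ 2 ^ (2 * m + 1) * (1 - y) ^ (m + 1) := by
    rw [← choose_sum, Finset.sum_mul]
    unfold bern'
    calc _ ≤ ∑ j ∈ Finset.Ico 0 (m + 1), ((2 * m + 1).choose j : ℝ) * (1 - y) ^ (m + 1) := by
          apply Finset.sum_le_sum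
          intro j hj
          have hj := Finset.mem_Ico.mp hj
          have e0 : 0 ≤ 1 - y := by linarith
          have e1 : (1 - y) ^ (2 * m + 1 - j) ≤ (1 - y) ^ (m + 1) :=
            pow_le_pow_of_le_one e0 (by linarith) (by omega)
          have e2 : y ^ j ≤ 1 := pow_le_one₀ (by linarith) (by linarith)
          have e4 : 0 ≤ y ^ j := by have : 0 ≤ y := by linarith
                                    positivity
          calc ((2 * m + 1).choose j : ℝ) * y ^ j * (1 - y) ^ (2 * m + 1 - j)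
              ≤ ((2 * m + 1).choose j : ℝ) * 1 * (1 - y) ^ (2 * m + 1 - j) := by gcongr
            _ ≤ ((2 * m + 1).choose j : ℝ) * (1 - y) ^ (m + 1) := by rw [mul_one]; gcongr
      _ ≤ _ := by
          apply Finset.sum_le_sum_of_subset_of_nonneg
          · intro j hj
            have hj := Finset.mem_Ico.mp hj
            exact Finset.mem_range.mpr (by omega)
          · intro j _ _
            have e0 : 0 ≤ 1 - y := by linarith
            positivity
  refine h2.trans ?_
  have e0 : 0 ≤ 1 - y := by linarith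
  have e1 : 1 - y ≤ 1 / 16 := by linarith
  calc (2 : ℝ) ^ (2 * m + 1) * (1 - y) ^ (m + 1) ≤ 2 ^ (2 * m + 1) * (1 / 16) ^ (m + 1) := by
        gcongr
    _ = (1 / 8) * ((4 : ℝ) ^ m * (1 / 16) ^ m) := by
        rw [pow_succ, pow_succ, pow_mul]; norm_num; ring
    _ = (1 / 8) * (1 / 4) ^ m := by rw [← mul_pow]; norm_num
    _ ≤ (1 / 4) ^ m := by
        have : (0 : ℝ) < (1 / 4) ^ m := by positivity
        linarith

/-- The step function of the angle. -/
noncomputable def stp (m : ℕ) (θ : ℝ) : ℝ := bern m ((1 + Real.cos θ) / 2)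

/-- The underlying algebraic polynomial. -/
noncomputable def bpoly (m : ℕ) : Polynomial ℝ :=
  ∑ j ∈ Finset.Ico (m + 1) (2 * m + 2), Polynomial.C ((2 * m + 1).choose j : ℝ) *
    (Polynomial.C (1 / 2) + Polynomial.C (1 / 2) * Polynomial.X) ^ j *
    (Polynomial.C (1 / 2) - Polynomial.C (1 / 2) * Polynomial.X) ^ (2 * m + 1 - j)

theorem bpoly_deg (m : ℕ) : (bpoly m).natDegree ≤ 2 * m + 1 := by
  unfold bpoly
  apply Polynomial.natDegree_sum_le_of_forall_le
  intro j hj
  have hj := Finset.mem_Ico.mp hj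
  have h1 : (Polynomial.C (1 / 2 : ℝ) + Polynomial.C (1 / 2) * Polynomial.X).natDegree ≤ 1 := by
    compute_degree
  have h2 : (Polynomial.C (1 / 2 : ℝ) - Polynomial.C (1 / 2) * Polynomial.X).natDegree ≤ 1 := by
    compute_degree
  have h3 := Polynomial.natDegree_pow_le_of_le j h1
  have h4 := Polynomial.natDegree_pow_le_of_le (2 * m + 1 - j) h2
  have h5 := Polynomial.natDegree_C ((2 * m + 1).choose j : ℝ)
  have h6 := Polynomial.natDegree_mul_le_of_le (Polynomial.natDegree_mul_le_of_le h5.le h3) h4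
  refine h6.trans ?_
  omega

theorem bpoly_eval (m : ℕ) (θ : ℝ) : (bpoly m).eval (Real.cos θ) = stp m θ := by
  unfold bpoly stp bern
  rw [Polynomial.eval_finsetSum]
  apply Finset.sum_congr rfl
  intro j _
  simp only [Polynomial.eval_mul, Polynomial.eval_pow, Polynomial.eval_add, Polynomial.eval_sub,
    Polynomial.eval_C, Polynomial.eval_X]
  congr 2
  · congr 1
    ring
  · ring

theorem stp_mem {m n : ℕ} (h : 2 * m + 1 ≤ n) : stp m ∈ trigPoly n := by
  have := polyCos_mem (bpoly m) ((bpoly_deg m).trans h)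
  convert this using 1
  ext θ
  exact (bpoly_eval m θ).symm

theorem stp_mul_mem {m n : ℕ} (h : 4 * m + 2 ≤ n) :
    (fun θ => stp m θ * (1 - stp m θ)) ∈ trigPoly n := by
  have hd : (bpoly m * (1 - bpoly m)).natDegree ≤ n := by
    have h1 : (1 - bpoly m).natDegree ≤ 2 * m + 1 := by
      refine (Polynomial.natDegree_sub_le _ _).trans ?_
      simp [bpoly_deg m]
    exact (Polynomial.natDegree_mul_le_of_le (bpoly_deg m) h1).trans (by omega)
  have := polyCos_mem (bpoly m * (1 - bpoly m)) hd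
  convert this using 1
  ext θ
  simp [bpoly_eval]

theorem y_mem (θ : ℝ) : 0 ≤ (1 + Real.cos θ) / 2 ∧ (1 + Real.cos θ) / 2 ≤ 1 := by
  have := Real.neg_one_le_cos θ
  have := Real.cos_le_one θ
  constructor <;> linarith

theorem stp_nonneg (m : ℕ) (θ : ℝ) : 0 ≤ stp m θ := bern_nonneg m (y_mem θ).1 (y_mem θ).2

theorem stp_le_one (m : ℕ) (θ : ℝ) : stp m θ ≤ 1 := by
  have h1 := bern_add m ((1 + Real.cos θ) / 2)
  have h2 := bern'_nonneg m (y_mem θ).1 (y_mem θ).2
  unfold stp
  linarith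

theorem stp_near (m : ℕ) {θ : ℝ} (h : 7 / 8 < Real.cos θ) : 1 - stp m θ ≤ (1 / 4) ^ m := by
  have h1 := bern_add m ((1 + Real.cos θ) / 2)
  have h2 := bern'_le m (y := (1 + Real.cos θ) / 2) (by linarith) (y_mem θ).2
  unfold stp
  linarith

theorem stp_far (m : ℕ) {θ : ℝ} (h : Real.cos θ < -(7 / 8)) : stp m θ ≤ (1 / 4) ^ m :=
  bern_le m (y_mem θ).1 (by linarith)

/-! ### The weights -/

/-- The second weight. -/
noncomputable def W2 (θ : ℝ) : ℝ := Real.sqrt 2 * W0 (θ + π)

/-- The glued weight. -/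
noncomputable def W (θ : ℝ) : ℝ := W0 θ + W2 θ

theorem W2_zero {θ : ℝ} (h : -(7 / 8) ≤ Real.cos θ) : W2 θ = 0 := by
  unfold W2
  rw [W0_zero (by rw [Real.cos_add_pi]; linarith), mul_zero]

theorem W2_nonneg (θ : ℝ) : 0 ≤ W2 θ := mul_nonneg (Real.sqrt_nonneg 2) (W0_nonneg _)

theorem W0_shift_int : IntervalIntegrable (fun θ => W0 (θ + π)) volume (-π) π := by
  have h1 : IntervalIntegrable W0 volume (-π + π) (π + π) :=
    W0_per.intervalIntegrable (by linarith [Real.pi_pos]) (t := -π)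
      (by rw [show -π + 2 * π = π by ring]; exact W0_int) _ _
  have := h1.comp_add_right π
  simpa using this

theorem W2_integral : ∫ θ in (-π)..π, W2 θ = Real.sqrt 2 * (2 * π) := by
  unfold W2
  rw [intervalIntegral.integral_const_mul, intervalIntegral.integral_comp_add_right]
  have h := W0_per.intervalIntegral_add_eq (-π + π) (-π)
  rw [show -π + π + 2 * π = π + π by ring, show -π + 2 * π = π by ring] at h
  rw [h, W0_integral]

theorem W2_isWeight : IsWeight W2 where
  measurable := (W0_meas.comp (measurable_id.add_const π)).const_mul _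
  nonneg := W2_nonneg
  periodic := by
    intro θ
    unfold W2
    rw [show θ + 2 * π + π = θ + π + 2 * π by ring, W0_per]
  integrable := W0_shift_int.const_mul _
  integral_pos := by
    rw [W2_integral]
    have := Real.pi_pos
    positivity

theorem W_integral : ∫ θ in (-π)..π, W θ = 2 * π * (1 + Real.sqrt 2) := by
  unfold W
  rw [intervalIntegral.integral_add W0_int W2_isWeight.integrable, W0_integral, W2_integral]
  ring

theorem W_isWeight : IsWeight W where
  measurable := W0_meas.add W2_isWeight.measurable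
  nonneg := fun θ => add_nonneg (W0_nonneg θ) (W2_nonneg θ)
  periodic := by
    intro θ
    unfold W
    rw [W0_per, W2_isWeight.periodic]
  integrable := W0_int.add W2_isWeight.integrable
  integral_pos := by
    rw [W_integral]
    have := Real.pi_pos
    positivity

theorem near_sign (x : ℝ) (h0 : 0 ≤ x) (h1 : x ≤ 1) :
    ∃ e : ℕ, e ≤ 1 ∧ |x - e| ≤ 2 * (x * (1 - x)) := by
  rcases le_total x (1 / 2) with h | h
  · refine ⟨0, by omega, ?_⟩
    rw [Nat.cast_zero, sub_zero, abs_of_nonneg h0]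
    nlinarith
  · refine ⟨1, le_rfl, ?_⟩
    rw [Nat.cast_one, abs_sub_comm, abs_of_nonneg (by linarith)]
    nlinarith

theorem dioph {p N : ℕ} (hN : 0 < N) (hp : p ≤ 2 * N) {δ : ℝ}
    (h : |(p : ℝ) / N - Real.sqrt 2| ≤ δ) : 1 ≤ 4 * δ * (N : ℝ) ^ 2 := by
  have hNR : (0 : ℝ) < N := by exact_mod_cast hN
  have h2 : Real.sqrt 2 ≤ 2 := by
    rw [Real.sqrt_le_left (by norm_num)]; norm_num
  have hs : Real.sqrt 2 ^ 2 = 2 := Real.sq_sqrt (by norm_num)
  have hne : ((p : ℤ) ^ 2 - 2 * (N : ℤ) ^ 2) ≠ 0 := by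
    intro h0
    have h3 : ((p : ℝ) / N) ^ 2 = 2 := by
      have : ((p : ℝ)) ^ 2 = 2 * (N : ℝ) ^ 2 := by
        have : ((p : ℤ) ^ 2 : ℤ) = 2 * (N : ℤ) ^ 2 := by linarith
        exact_mod_cast this
      field_simp
      linarith
    have h4 : Real.sqrt 2 = (p : ℝ) / N := by
      rw [← h3, Real.sqrt_sq (by positivity)]
    apply irrational_sqrt_two
    exact ⟨(p : ℚ) / N, by push_cast; exact h4.symm⟩
  have h1 : (1 : ℝ) ≤ |(p : ℝ) ^ 2 - 2 * (N : ℝ) ^ 2| := by
    have := Int.one_le_abs hne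
    exact_mod_cast this
  have h5 : (p : ℝ) / N ≤ 2 := by
    rw [div_le_iff₀ hNR]; exact_mod_cast hp
  have h6 : (p : ℝ) ^ 2 - 2 * (N : ℝ) ^ 2 =
      ((p : ℝ) / N - Real.sqrt 2) * ((p : ℝ) / N + Real.sqrt 2) * (N : ℝ) ^ 2 := by
    have : ((p : ℝ) / N - Real.sqrt 2) * ((p : ℝ) / N + Real.sqrt 2) =
        ((p : ℝ) / N) ^ 2 - Real.sqrt 2 ^ 2 := by ring
    rw [this, hs]
    field_simp
  rw [h6, abs_mul, abs_mul, abs_of_pos (show (0 : ℝ) < (N : ℝ) ^ 2 by positivity)] at h1
  have h7 : |(p : ℝ) / N + Real.sqrt 2| ≤ 4 := by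
    rw [abs_of_nonneg (by positivity)]; linarith
  calc (1 : ℝ) ≤ _ := h1
    _ ≤ δ * 4 * (N : ℝ) ^ 2 := by
        apply mul_le_mul_of_nonneg_right _ (by positivity)
        exact mul_le_mul h h7 (abs_nonneg _) ((abs_nonneg _).trans h)
    _ = 4 * δ * (N : ℝ) ^ 2 := by ring

theorem lower {m n N : ℕ} (hmn : 4 * m + 2 ≤ n) (hq : HasQuad W n N) :
    0 < N ∧ 2 ^ m ≤ 4 * N := by
  obtain ⟨t, lam, -, hq⟩ := hq
  have hpi := Real.pi_pos
  have hs2 : 0 ≤ Real.sqrt 2 := Real.sqrt_nonneg 2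
  set ε : ℝ := (1 / 4) ^ m with hε
  have hεpos : 0 < ε := by positivity
  set T : ℝ := 2 * π * (1 + Real.sqrt 2) with hT
  have hTpos : 0 < T := by positivity
  have q0 := hq _ (one_mem n)
  have q1 := hq _ (stp_mem (m := m) (n := n) (by omega))
  have q2 := hq _ (stp_mul_mem hmn)
  simp only [one_mul, Finset.sum_const, Finset.card_univ, Fintype.card_fin, nsmul_eq_mul,
    mul_one] at q0
  rw [W_integral, ← hT] at q0
  have hN : 0 < N := by
    rcases Nat.eq_zero_or_pos N with h | h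
    · rw [h, Nat.cast_zero, mul_zero] at q0; linarith
    · exact h
  have hNR : (0 : ℝ) < N := by exact_mod_cast hN
  have hlam : lam = T / N := by rw [q0]; field_simp
  have hcont : Continuous (stp m) := continuous_of_mem (stp_mem (m := m) (n := 2 * m + 1) le_rfl)
  -- pointwise bounds
  have pw1 : ∀ θ, (1 - stp m θ) * W0 θ ≤ ε * W0 θ := by
    intro θ
    by_cases h : 7 / 8 < Real.cos θ
    · exact mul_le_mul_of_nonneg_right (stp_near m h) (W0_nonneg θ)
    · rw [W0_zero (not_lt.mp h)]; simp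
  have pw2 : ∀ θ, stp m θ * W2 θ ≤ ε * W2 θ := by
    intro θ
    by_cases h : Real.cos θ < -(7 / 8)
    · exact mul_le_mul_of_nonneg_right (stp_far m h) (W2_nonneg θ)
    · rw [W2_zero (not_lt.mp h)]; simp
  have iW0 := W0_int
  have iW2 := W2_isWeight.integrable
  have i1 : IntervalIntegrable (fun θ => stp m θ * W0 θ) volume (-π) π :=
    hint W0_isWeight hcont
  have i2 : IntervalIntegrable (fun θ => stp m θ * W2 θ) volume (-π) π :=
    hint W2_isWeight hcont
  have e1 : ∫ θ in (-π)..π, stp m θ * W θ =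
      (∫ θ in (-π)..π, stp m θ * W0 θ) + ∫ θ in (-π)..π, stp m θ * W2 θ := by
    rw [← intervalIntegral.integral_add i1 i2]
    apply intervalIntegral.integral_congr
    intro θ _
    simp only [W]; ring
  have b1 : ∫ θ in (-π)..π, stp m θ * W0 θ ≤ 2 * π := by
    rw [← W0_integral]
    apply intervalIntegral.integral_mono_on (by linarith) i1 iW0
    intro θ _
    have := mul_le_mul_of_nonneg_right (stp_le_one m θ) (W0_nonneg θ)
    linarith
  have b2 : (1 - ε) * (2 * π) ≤ ∫ θ in (-π)..π, stp m θ * W0 θ := by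
    rw [← W0_integral, ← intervalIntegral.integral_const_mul]
    apply intervalIntegral.integral_mono_on (by linarith) (iW0.const_mul _) i1
    intro θ _
    have := pw1 θ
    linarith
  have b3 : ∫ θ in (-π)..π, stp m θ * W2 θ ≤ ε * (Real.sqrt 2 * (2 * π)) := by
    rw [← W2_integral, ← intervalIntegral.integral_const_mul]
    apply intervalIntegral.integral_mono_on (by linarith) i2 (iW2.const_mul _)
    intro θ _
    exact pw2 θ
  have b4 : 0 ≤ ∫ θ in (-π)..π, stp m θ * W2 θ := by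
    apply intervalIntegral.integral_nonneg (by linarith)
    intro θ _
    exact mul_nonneg (stp_nonneg m θ) (W2_nonneg θ)
  have b5 : ∫ θ in (-π)..π, stp m θ * (1 - stp m θ) * W θ ≤ ε * T := by
    rw [hT, ← W_integral, ← intervalIntegral.integral_const_mul]
    apply intervalIntegral.integral_mono_on (by linarith)
      (hint W_isWeight (hcont.mul (continuous_const.sub hcont))) (W_isWeight.integrable.const_mul _)
    intro θ _
    have h1 := pw1 θ
    have h2 := pw2 θ
    have h3 := stp_nonneg m θ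
    have h4 := stp_le_one m θ
    have h5 : stp m θ * ((1 - stp m θ) * W0 θ) ≤ 1 * ((1 - stp m θ) * W0 θ) :=
      mul_le_mul_of_nonneg_right h4 (mul_nonneg (by linarith) (W0_nonneg θ))
    have h6 : (1 - stp m θ) * (stp m θ * W2 θ) ≤ 1 * (stp m θ * W2 θ) :=
      mul_le_mul_of_nonneg_right (by linarith) (mul_nonneg h3 (W2_nonneg θ))
    show stp m θ * (1 - stp m θ) * W θ ≤ ε * W θ
    unfold W
    nlinarith
  -- transfer to the nodes
  rw [e1, hlam] at q1
  have q2' : ∑ i, stp m (t i) * (1 - stp m (t i)) ≤ N * ε := by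
    have h1 : T / N * ∑ i, stp m (t i) * (1 - stp m (t i)) ≤ ε * T := by
      rw [← hlam, ← q2]; exact b5
    have h2 : T / N * ∑ i, stp m (t i) * (1 - stp m (t i)) =
      (∑ i, stp m (t i) * (1 - stp m (t i))) / N * T := by ring
    rw [h2] at h1
    have h3 := le_of_mul_le_mul_right h1 hTpos
    rw [div_le_iff₀ hNR] at h3
    linarith
  have q1' : |(∑ i, stp m (t i)) / N - 1 / (1 + Real.sqrt 2)| ≤ ε := by
    have h2 : T / N * ∑ i, stp m (t i) = (∑ i, stp m (t i)) / N * T := by ring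
    rw [h2] at q1
    have h3 : (∑ i, stp m (t i)) / N * T - 1 / (1 + Real.sqrt 2) * T =
        ((∑ i, stp m (t i)) / N - 1 / (1 + Real.sqrt 2)) * T := by ring
    have h4 : 1 / (1 + Real.sqrt 2) * T = 2 * π := by rw [hT]; field_simp
    rw [h4, ← q1] at h3
    have h5 : |((∑ i, stp m (t i)) / N - 1 / (1 + Real.sqrt 2)) * T| ≤ ε * T := by
      rw [← h3, hT, abs_le]
      constructor <;> nlinarith
    rw [abs_mul, abs_of_pos hTpos] at h5
    exact le_of_mul_le_mul_right h5 hTpos
  choose e he1 he using fun i => near_sign (stp m (t i)) (stp_nonneg m _) (stp_le_one m _)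
  set k : ℕ := ∑ i, e i with hk
  have hkN : k ≤ N := by
    rw [hk]
    calc ∑ i, e i ≤ ∑ _i : Fin N, 1 := Finset.sum_le_sum fun i _ => he1 i
      _ = N := by simp
  have hsum : |∑ i, stp m (t i) - (k : ℝ)| ≤ 2 * (N * ε) := by
    have : ∑ i, stp m (t i) - (k : ℝ) = ∑ i, (stp m (t i) - (e i : ℝ)) := by
      rw [Finset.sum_sub_distrib, hk]; push_cast; rfl
    rw [this]
    calc |∑ i, (stp m (t i) - (e i : ℝ))|
        ≤ ∑ i, |stp m (t i) - (e i : ℝ)| := Finset.abs_sum_le_sum_abs _ _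
      _ ≤ ∑ i, 2 * (stp m (t i) * (1 - stp m (t i))) := Finset.sum_le_sum fun i _ => he i
      _ = 2 * ∑ i, stp m (t i) * (1 - stp m (t i)) := by rw [Finset.mul_sum]
      _ ≤ 2 * (N * ε) := by linarith
  have hfin : |((k + N : ℕ) : ℝ) / N - Real.sqrt 2| ≤ 3 * ε := by
    have h1 : 1 / (1 + Real.sqrt 2) = Real.sqrt 2 - 1 := by
      have hs : Real.sqrt 2 ^ 2 = 2 := Real.sq_sqrt (by norm_num)
      rw [div_eq_iff (by positivity)]
      nlinarith
    rw [h1] at q1'
    have h2 : ((k + N : ℕ) : ℝ) / N - Real.sqrt 2 =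
        ((∑ i, stp m (t i)) / N - (Real.sqrt 2 - 1)) - (∑ i, stp m (t i) - (k : ℝ)) / N := by
      push_cast
      field_simp
      ring
    have h3 : |(∑ i, stp m (t i) - (k : ℝ)) / N| ≤ 2 * ε := by
      rw [abs_div, abs_of_pos hNR, div_le_iff₀ hNR]
      linarith
    rw [h2]
    calc _ ≤ |(∑ i, stp m (t i)) / N - (Real.sqrt 2 - 1)| +
          |(∑ i, stp m (t i) - (k : ℝ)) / N| := abs_sub _ _
      _ ≤ ε + 2 * ε := add_le_add q1' h3
      _ = 3 * ε := by ring
  have hd := dioph hN (p := k + N) (by omega) hfin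
  refine ⟨hN, ?_⟩
  have h4 : (4 : ℝ) ^ m * ε = 1 := by rw [hε, ← mul_pow]; norm_num
  have h5 : (4 : ℝ) ^ m ≤ 12 * (N : ℝ) ^ 2 := by
    have h6 : (0 : ℝ) < 4 ^ m := by positivity
    calc (4 : ℝ) ^ m = 4 ^ m * 1 := by ring
      _ ≤ 4 ^ m * (4 * (3 * ε) * (N : ℝ) ^ 2) := mul_le_mul_of_nonneg_left hd h6.le
      _ = 12 * (4 ^ m * ε) * (N : ℝ) ^ 2 := by ring
      _ = 12 * (N : ℝ) ^ 2 := by rw [h4]; ring
  have h7 : ((2 : ℝ) ^ m) ^ 2 ≤ (4 * (N : ℝ)) ^ 2 := by
    calc ((2 : ℝ) ^ m) ^ 2 = 4 ^ m := by rw [← pow_mul, mul_comm, pow_mul]; norm_num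
      _ ≤ 12 * (N : ℝ) ^ 2 := h5
      _ ≤ (4 * (N : ℝ)) ^ 2 := by nlinarith
  have h8 : (2 : ℝ) ^ m ≤ 4 * (N : ℝ) := by
    exact (pow_le_pow_iff_left₀ (by positivity) (by positivity) (by norm_num)).mp h7
  exact_mod_cast h8

theorem lower' {n N : ℕ} (hq : HasQuad W n N) : 2 ^ (n / 4) ≤ 8 * N := by
  rcases Nat.lt_or_ge n 4 with h | h
  · have h1 : HasQuad W 0 N := by
      obtain ⟨t, lam, ht, hq⟩ := hq
      exact ⟨t, lam, ht, fun p hp => hq p (mono (Nat.zero_le n) hp)⟩
    have hN : 0 < N := by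
      obtain ⟨t, lam, -, hq⟩ := h1
      have q0 := hq _ (one_mem 0)
      simp only [one_mul, Finset.sum_const, Finset.card_univ, Fintype.card_fin, nsmul_eq_mul,
        mul_one] at q0
      rcases Nat.eq_zero_or_pos N with h | h
      · rw [h, Nat.cast_zero, mul_zero] at q0
        linarith [W_isWeight.integral_pos]
      · exact h
    have : n / 4 = 0 := Nat.div_eq_of_lt h
    rw [this]
    omega
  · obtain ⟨m, hm⟩ : ∃ m, n / 4 = m + 1 := ⟨n / 4 - 1, by omega⟩
    have := (lower (m := m) (by omega) hq).2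
    rw [hm, pow_succ]
    omega

theorem growth (k : ℕ) (hk : 13 ≤ k) : 40 * k ^ 2 < 2 ^ k := by
  induction k, hk using Nat.le_induction with
  | base => norm_num
  | succ k hk ih =>
    rw [pow_succ 2 k]
    nlinarith

/-- **Main theorem.**  Two weights `W₁, W₂` with equal weight quadratures of every degree `n`
with any number `N > n` of nodes, and a weight `W` agreeing near every point with one of them,
for which the number of nodes needed grows exponentially. -/
theorem result : ∃ W₁ W₂ W : ℝ → ℝ, IsWeight W₁ ∧ IsWeight W₂ ∧ IsWeight W ∧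
    (∀ x : ℝ, ∃ U : Set ℝ, IsOpen U ∧ x ∈ U ∧ ((∀ y ∈ U, W y = W₁ y) ∨ ∀ y ∈ U, W y = W₂ y)) ∧
    (∀ n N : ℕ, n < N → HasQuad W₁ n N ∧ HasQuad W₂ n N) ∧
    (∀ n N : ℕ, HasQuad W n N → 2 ^ (n / 4) ≤ 8 * N) ∧
    (¬ ∃ M : ℕ, ∀ n : ℕ, 1 ≤ n → minNodes W n ≤ M * max (minNodes W₁ n) (minNodes W₂ n)) ∧
    (¬ ∃ M : ℕ, ∀ n : ℕ, 1 ≤ n →
      minAllNodes W n ≤ M * max (minAllNodes W₁ n) (minAllNodes W₂ n)) := by
  have hq1 : ∀ n N : ℕ, n < N → HasQuad W0 n N := fun n N h => quad_W0 h
  have hq2 : ∀ n N : ℕ, n < N → HasQuad W2 n N :=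
    fun n N h => (quad_W0 h).shift W0_isWeight (Real.sqrt 2)
  have key : ∀ M : ℕ, ∃ n : ℕ, 1 ≤ n ∧ ∀ N, HasQuad W n N → M * (n + 1) + 1 ≤ N := by
    intro M
    refine ⟨4 * (M + 13), by omega, fun N hN => ?_⟩
    have h1 := lower' hN
    rw [show 4 * (M + 13) / 4 = M + 13 by omega] at h1
    have h2 := growth (M + 13) (by omega)
    by_contra hcon
    have h3 : N ≤ M * (4 * (M + 13) + 1) := by omega
    nlinarith
  refine ⟨W0, W2, W, W0_isWeight, W2_isWeight, W_isWeight, ?_, fun n N h => ⟨hq1 n N h, hq2 n N h⟩,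
    fun n N h => lower' h, ?_, ?_⟩
  · intro x
    rcases le_total 0 (Real.cos x) with h | h
    · refine ⟨{y | -(7 / 8) < Real.cos y}, isOpen_lt continuous_const Real.continuous_cos, ?_,
        Or.inl ?_⟩
      · exact (show -(7 / 8) < Real.cos x by linarith)
      · intro y hy
        simp only [W]
        rw [W2_zero (le_of_lt hy), add_zero]
    · refine ⟨{y | Real.cos y < 7 / 8}, isOpen_lt Real.continuous_cos continuous_const, ?_,
        Or.inr ?_⟩
      · exact (show Real.cos x < 7 / 8 by linarith)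
      · intro y hy
        simp only [W]
        rw [W0_zero (le_of_lt hy), zero_add]
  · rintro ⟨M, hM⟩
    obtain ⟨n, hn1, hn⟩ := key M
    have h1 : ((M * (n + 1) + 1 : ℕ) : ℕ∞) ≤ minNodes W n :=
      le_iInf₂ fun N hN => by exact_mod_cast hn N hN
    have h2 : max (minNodes W0 n) (minNodes W2 n) ≤ ((n + 1 : ℕ) : ℕ∞) :=
      max_le (iInf₂_le (n + 1) (hq1 n _ (Nat.lt_succ_self n)))
        (iInf₂_le (n + 1) (hq2 n _ (Nat.lt_succ_self n)))
    have h3 : minNodes W n ≤ ((M * (n + 1) : ℕ) : ℕ∞) := by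
      refine (hM n hn1).trans ?_
      push_cast
      exact mul_le_mul_right (by exact_mod_cast h2) _
    have h4 := h1.trans h3
    have h5 : M * (n + 1) + 1 ≤ M * (n + 1) := by exact_mod_cast h4
    omega
  · rintro ⟨M, hM⟩
    obtain ⟨n, hn1, hn⟩ := key M
    have h1 : ((M * (n + 1) + 1 : ℕ) : ℕ∞) ≤ minAllNodes W n :=
      le_iInf₂ fun N hN => by exact_mod_cast hn N (hN N le_rfl)
    have h2 : max (minAllNodes W0 n) (minAllNodes W2 n) ≤ ((n + 1 : ℕ) : ℕ∞) :=
      max_le (iInf₂_le (n + 1) (fun N hN => hq1 n N (by omega)))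
        (iInf₂_le (n + 1) (fun N hN => hq2 n N (by omega)))
    have h3 : minAllNodes W n ≤ ((M * (n + 1) : ℕ) : ℕ∞) := by
      refine (hM n hn1).trans ?_
      push_cast
      exact mul_le_mul_right (by exact_mod_cast h2) _
    have h4 := h1.trans h3
    have h5 : M * (n + 1) + 1 ≤ M * (n + 1) := by exact_mod_cast h4
    omega

end Pool.Agent.Results.MP_c62d6e_an.NotLocal
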